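import Pool.Agent.Y655.RZ.Par
import Pool.Agent.Y667.QK.Stm

/-!
# Project QK (helper667), part PAR: parity
-/

set_option autoImplicit false

namespace Pool.Agent.Y655.QK

open Finset Pool.Agent.W262.RK Pool.Agent.W307.RT Pool.Agent.W307.RS Pool.Agent.W307.SE
  Pool.Agent.W307.FK Pool.Agent.Y667.RP Pool.Agent.Y667.RZ Pool.Agent.Y655.RZ

open Pool.Agent.Y667.QK (twt Lt Vt AdT Flip RC)

open NumberTheorySymbols jacobiSym

/-- at the primes `q ≠ f` of the twist -/
def L2 (_v _w h g : Bool) : Prop := h = false ∧ g = false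

lemma xcL2 : XC L2 := by
  refine ⟨⟨rfl, rfl⟩, ?_⟩
  rintro a b c d a' b' c' d' ⟨rfl, rfl⟩ ⟨rfl, rfl⟩
  exact ⟨rfl, rfl⟩

lemma card_L2 : Nat.card {x : XX // LX L2 x} = 4 := by
  have key : ∀ (P : XX → Prop) [DecidablePred P], Fintype.card {x : XX // P x} = 4 →
      Nat.card {x : XX // P x} = 4 := by
    intro P _ h
    rw [Nat.card_eq_fintype_card, h]
  unfold LX L2
  exact key _ (by decide)

lemma card_L22 : Nat.card {x : XX // LX L2 x ∧ LX L2 x} = 4 := by
  have key : ∀ (P : XX → Prop) [DecidablePred P], Fintype.card {x : XX // P x} = 4 →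
      Nat.card {x : XX // P x} = 4 := by
    intro P _ h
    rw [Nat.card_eq_fintype_card, h]
  unfold LX L2
  exact key _ (by decide)

lemma qbL2 {e a b c d v w h g : Bool} (h1 : L2 v w h g) (hb : b = false) (hc : c = false)
    (ha : a = false) (hd : d = false) (he : e = false) : qb e a b c d v w h g = false := by
  obtain ⟨rfl, rfl⟩ := h1
  subst hb hc ha hd he
  revert v w
  unfold qb Pool.Agent.Y667.RP.hb
  decide

/-- one more prime, with the trivial condition -/
def Lf (f : ℕ) (L : ℕ → Bool → Bool → Bool → Bool → Prop) (p : ℕ) (v w h g : Bool) : Prop :=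
  if p = f then L0 v w h g else L p v w h g

lemma Lf_f (f : ℕ) (L : ℕ → Bool → Bool → Bool → Bool → Prop) : Lf f L f = L0 := by
  funext v w x g
  unfold Lf
  rw [if_pos rfl]

lemma Lf_ne {f : ℕ} (L : ℕ → Bool → Bool → Bool → Bool → Prop) {p : ℕ} (hp : p ≠ f) :
    Lf f L p = L p := by
  funext v w x g
  unfold Lf
  rw [if_neg hp]

lemma xcLf {f : ℕ} {L : ℕ → Bool → Bool → Bool → Bool → Prop} (hL : ∀ p, XC (L p)) (p : ℕ) :
    XC (Lf f L p) := by
  by_cases h : p = f
  · rw [h, Lf_f]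
    exact xcL0
  · rw [Lf_ne L h]
    exact hL p

lemma Lt_f {f τ : ℕ} (s : Fin 3 → ℕ) (E : Finset ℕ) (h : f ∣ τ) : Lt f τ s E f = L1 := by
  funext v w x g
  unfold Lt L1
  rw [if_pos h]
  simp

lemma Lt_q {f τ : ℕ} (s : Fin 3 → ℕ) (E : Finset ℕ) {q : ℕ} (h : q ∣ τ) (hq : q ≠ f) :
    Lt f τ s E q = L2 := by
  funext v w x g
  unfold Lt L2
  rw [if_pos h]
  simp [hq]

lemma Lt_ne {f τ : ℕ} (s : Fin 3 → ℕ) (E : Finset ℕ) {q : ℕ} (h : ¬ q ∣ τ) :
    Lt f τ s E q = LF s (twt τ (∏ j, s j) E) q := by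
  funext v w x g
  unfold Lt
  rw [if_neg h]

lemma xcLt (f τ : ℕ) (s : Fin 3 → ℕ) (E : Finset ℕ) (p : ℕ) : XC (Lt f τ s E p) := by
  by_cases h : p ∣ τ
  · by_cases h' : p = f
    · subst h'
      rw [Lt_f s E h]
      exact xcL1
    · rw [Lt_q s E h h']
      exact xcL2
  · rw [Lt_ne s E h]
    exact xcLF s _ p

/-- one more prime, with the trivial condition: the same classes -/
lemma VG_Lf {f m : ℕ} (hf : f.Prime) (hf2 : f ≠ 2) (hm : m ≠ 0) (hfm : ¬ f ∣ m)
    (L : ℕ → Bool → Bool → Bool → Bool → Prop) : VG m L = VG (f * m) (Lf f L) := by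
  have hpf : (f * m).primeFactors = insert f m.primeFactors := by
    rw [Nat.primeFactors_mul hf.ne_zero hm, hf.primeFactors]
    rfl
  ext d
  constructor
  · rintro ⟨h1, h2, h3, h4, h5, h6, h7⟩
    refine ⟨h1, h2, h3, h4, fun q hq h => (h5 q hq h).mul_left _, fun q hq h => ?_, ?_⟩
    · rw [← mul_assoc, mul_comm 2 f, mul_assoc]
      exact (h6 q hq h).mul_left _
    · intro p hp
      rw [hpf, mem_insert] at hp
      unfold Lf
      by_cases h : p = f
      · rw [if_pos h]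
        subst h
        constructor
        · unfold dv
          rw [decide_eq_false_iff_not]
          exact fun hd => hfm (h5 p hf hd)
        · unfold dv
          rw [decide_eq_false_iff_not]
          intro hd
          rcases (hf.dvd_mul).1 (h6 p hf hd) with h | h
          · exact hf2 ((Nat.prime_dvd_prime_iff_eq hf Nat.prime_two).1 h)
          · exact hfm h
      · rw [if_neg h]
        exact h7 p (hp.resolve_left h)
  · rintro ⟨h1, h2, h3, h4, h5, h6, h7⟩
    have hfM : f ∈ (f * m).primeFactors := by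
      rw [hpf]; exact mem_insert_self _ _
    have h8 := h7 f hfM
    unfold Lf at h8
    rw [if_pos rfl] at h8
    obtain ⟨h9, h10⟩ := h8
    unfold dv at h9 h10
    rw [decide_eq_false_iff_not] at h9 h10
    refine ⟨h1, h2, h3, h4, ?_, ?_, ?_⟩
    · intro q hq hd
      rcases (hq.dvd_mul).1 (h5 q hq hd) with h | h
      · have : q = f := (Nat.prime_dvd_prime_iff_eq hq hf).1 h
        subst this
        exact absurd hd h9
      · exact h
    · intro q hq hd
      have h11 := h6 q hq hd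
      rw [← mul_assoc, mul_comm 2 f, mul_assoc] at h11
      rcases (hq.dvd_mul).1 h11 with h | h
      · have : q = f := (Nat.prime_dvd_prime_iff_eq hq hf).1 h
        subst this
        exact absurd hd h10
      · exact h
    · intro p hp
      have hne : p ≠ f := by
        rintro rfl
        exact hfm (Nat.dvd_of_mem_primeFactors hp)
      have h12 := h7 p (by rw [hpf]; exact mem_insert_of_mem hp)
      unfold Lf at h12
      rwa [if_neg hne] at h12

lemma jac_two {q : ℕ} (hq : q % 8 = 1) : J(2 | q) = 1 := by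
  have ho : Odd q := Nat.odd_iff.2 (by omega)
  rw [jacobiSym.at_two ho, ZMod.χ₈_nat_eq_if_mod_eight]
  rw [if_neg (by omega), if_pos (Or.inl hq)]

lemma jac_neg {q : ℕ} (hq : q % 8 = 1) : J(-1 | q) = 1 := by
  have ho : Odd q := Nat.odd_iff.2 (by omega)
  rw [jacobiSym.at_neg_one ho]
  exact ZMod.χ₄_nat_one_mod_four (by omega)

lemma jac_mod {p : ℕ} {x y : ℤ} (z : ℤ) (h : x = y + p * z) : J(x | p) = J(y | p) := by
  apply jacobiSym.mod_left'
  rw [h, Int.add_mul_emod_self_left]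

/-- the symbols at a prime of the twist -/
lemma jac_at {s : Fin 3 → ℕ} (hrel : (s 0 : ℤ) - s 1 = 32 * s 2) {q : ℕ} (hq8 : q % 8 = 1)
    (h0 : s 0 % q = 1) {β : ℤ} (h1 : (q : ℤ) ∣ (s 1 : ℤ) - β) :
    J(((s 0 : ℤ) * s 1) | q) = J(β | q) ∧ J((2 * (s 0 : ℤ) * s 2) | q) = J((1 - β) | q) ∧
      J(((s 0 : ℤ) * s 1 * s 2) | q) = J(β | q) * J((1 - β) | q) := by
  obtain ⟨z1, hz1⟩ := h1
  obtain ⟨z0, hz0⟩ : (q : ℤ) ∣ (s 0 : ℤ) - 1 := by
    have h2 : q * (s 0 / q) + s 0 % q = s 0 := Nat.div_add_mod _ _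
    rw [h0] at h2
    refine ⟨(s 0 / q : ℕ), ?_⟩
    have h3 : ((q * (s 0 / q) + 1 : ℕ) : ℤ) = s 0 := by rw [h2]
    push_cast at h3 ⊢
    linarith
  have e0 : (s 0 : ℤ) = 1 + q * z0 := by linarith
  have e1 : (s 1 : ℤ) = β + q * z1 := by linarith
  have j2 := jac_two hq8
  have a1 : J(((s 0 : ℤ) * s 1) | q) = J(β | q) := by
    apply jac_mod (z0 * β + z1 + q * z0 * z1)
    rw [e0, e1]
    ring
  have a2 : J(((s 0 : ℤ) - s 1) | q) = J((1 - β) | q) := by
    apply jac_mod (z0 - z1)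
    rw [e0, e1]
    ring
  have a0 : J((s 0 : ℤ) | q) = 1 := by
    rw [jac_mod z0 e0]
    exact jacobiSym.one_left q
  have a32 : J((32 : ℤ) | q) = 1 := by
    have : (32 : ℤ) = 2 ^ 5 := by norm_num
    rw [this, jacobiSym.pow_left, j2, one_pow]
  have a3 : J((s 2 : ℤ) | q) = J((1 - β) | q) := by
    rw [← a2, hrel, jacobiSym.mul_left, a32, one_mul]
  refine ⟨a1, ?_, ?_⟩
  · rw [jacobiSym.mul_left, jacobiSym.mul_left, j2, a0, a3, one_mul, one_mul]
  · rw [jacobiSym.mul_left, a1, a3]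

/-- the signs of the two twists -/
lemma twt_dec {f t m : ℕ} {E : Finset ℕ} {p : ℕ} (hp : p ∈ m.primeFactors)
    (hf : Nat.Coprime (f * t) m) :
    (decide (p ∈ twt t m E) = decide (p ∈ twt (f * t) m E)) ↔ ¬ jacobiSym f p = -1 := by
  have hpm := Nat.dvd_of_mem_primeFactors hp
  have hc : Nat.Coprime (f * t) p := hf.coprime_dvd_right hpm
  have hf' : Nat.Coprime f p := hc.coprime_dvd_left (Nat.dvd_mul_right _ _)
  have ht' : Nat.Coprime t p := hc.coprime_dvd_left (Nat.dvd_mul_left _ _)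
  have e1 : ((f : ℤ)).gcd p = 1 := hf'
  have e2 : ((t : ℤ)).gcd p = 1 := ht'
  have e3 : J(((f * t : ℕ) : ℤ) | p) = J((f : ℤ) | p) * J((t : ℤ) | p) := by
    push_cast
    exact jacobiSym.mul_left _ _ _
  rw [decide_eq_decide]
  unfold Pool.Agent.Y667.QK.twt
  rw [mem_filter, mem_filter, e3]
  rcases jacobiSym.eq_one_or_neg_one e1 with h1 | h1 <;>
    rcases jacobiSym.eq_one_or_neg_one e2 with h2 | h2 <;>
    rw [h1, h2] <;> by_cases h3 : p ∈ E <;> simp [h3, hp]

theorem PAR (hLAG : St_LAG) : Pool.Agent.Y667.QK.St_PAR := by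
  classical
  intro f β t s hF hT hs hodd hcop hrel h0 h1 hRC hσ
  obtain ⟨m, hm⟩ : ∃ m, m = ∏ j, s j := ⟨_, rfl⟩
  obtain ⟨E, hE⟩ : ∃ E, E = sgF (s 0) (s 1) (∏ j, s j) := ⟨_, rfl⟩
  rw [← hE]
  clear hE
  have hf := hF.pr
  have hft0 : f * t ≠ 0 := hT.sqf.ne_zero
  have ht0 : t ≠ 0 := right_ne_zero_of_mul hft0
  have hm0 : m ≠ 0 := by rw [hm]; exact hs.ne_zero
  have hsm : Squarefree m := by rw [hm]; exact hs
  have hom : Odd m := by rw [hm]; exact hodd
  have hcm : Nat.Coprime (f * t) m := by rw [hm]; exact hcop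
  have hoft : Odd (f * t) := by
    rw [← Nat.not_even_iff_odd]
    intro h
    have h2 := hT.m8 2 (Nat.mem_primeFactors.2 ⟨Nat.prime_two, even_iff_two_dvd.1 h, hft0⟩)
    omega
  have hf2 : f ≠ 2 := by
    rintro rfl
    have := hF.m8
    omega
  have hft : ¬ f ∣ t := by
    intro h
    have h2 := hT.sqf f (Nat.mul_dvd_mul_left f h)
    exact hf.one_lt.ne' (Nat.isUnit_iff.1 h2)
  have hfm : ¬ f ∣ m := by
    intro h
    have h2 := Nat.dvd_gcd (Nat.dvd_mul_right f t) h
    rw [hcm] at h2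
    exact hf.one_lt.ne' (Nat.dvd_one.1 h2)
  have hqm : ∀ q : ℕ, q.Prime → q ∣ f * t → ¬ q ∣ m := by
    intro q hq h h'
    have h2 := Nat.dvd_gcd h h'
    rw [hcm] at h2
    exact hq.one_lt.ne' (Nat.dvd_one.1 h2)
  obtain ⟨M, hM⟩ : ∃ M, M = f * t * m := ⟨_, rfl⟩
  have hM0 : M ≠ 0 := by rw [hM]; exact mul_ne_zero hft0 hm0
  have hMs : Squarefree M := by
    rw [hM, Nat.squarefree_mul hcm]
    exact ⟨hT.sqf, hsm⟩
  have hMo : Odd M := by
    rw [hM]
    exact hoft.mul hom
  have hS : HS M := by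
    intro σ h
    obtain ⟨p, hp, hd, hJ⟩ := hσ σ h
    exact ⟨p, hp, by rw [hM, hm]; exact hd.mul_left _, hJ⟩
  -- the linear data
  have hx0s : Squarefree ((s 0 : ℤ) * s 1) := by
    have : Squarefree (s 0 * s 1) := hs.squarefree_of_dvd ⟨s 2, by rw [prod3]⟩
    have h2 := Int.squarefree_natCast.2 this
    push_cast at h2
    exact h2
  have hy0s : Squarefree (2 * (s 0 : ℤ) * s 2) := by
    have k1 : Squarefree (s 0 * s 2) := hs.squarefree_of_dvd ⟨s 1, by rw [prod3]; ring⟩
    have k2 : Odd (s 0 * s 2) := Odd.of_dvd_nat hodd ⟨s 1, by rw [prod3]; ring⟩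
    have k3 : Squarefree (2 * (s 0 * s 2)) := by
      rw [Nat.squarefree_mul ((Nat.coprime_two_left).2 k2)]
      exact ⟨Nat.prime_two.prime.irreducible.squarefree, k1⟩
    have k4 := Int.squarefree_natCast.2 k3
    push_cast at k4
    rwa [← mul_assoc] at k4
  have hx0p : 0 < ((s 0 : ℤ) * s 1) := by
    have k0 : (0 : ℤ) < s 0 := by omega
    have k1 : (0 : ℤ) < s 1 := by omega
    exact mul_pos k0 k1
  have hx08 : ((s 0 : ℤ) * s 1) % 8 = 1 := by
    have k0 : (s 0 : ℤ) % 8 = 1 := by omega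
    have k1 : (s 1 : ℤ) % 8 = 1 := by omega
    rw [Int.mul_emod, k0, k1]
    norm_num
  have hxM : ∀ q : ℕ, q.Prime → (q : ℤ) ∣ ((s 0 : ℤ) * s 1) → q ∣ M := by
    intro q hq h
    have h' : q ∣ s 0 * s 1 := by exact_mod_cast h
    rw [hM, hm, prod3]
    exact (h'.mul_right _).mul_left _
  have hyM : ∀ q : ℕ, q.Prime → (q : ℤ) ∣ (2 * (s 0 : ℤ) * s 2) → q ∣ 2 * M := by
    intro q hq h
    have h' : q ∣ 2 * s 0 * s 2 := by exact_mod_cast h
    rw [hM, hm, prod3]
    exact h'.trans ⟨(f * t) * s 1, by ring⟩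
  have hmemM : ∀ p ∈ M.primeFactors, p.Prime ∧ (p ∣ f * t ∧ p % 8 = 1 ∨
      ¬ p ∣ f * t ∧ p ∈ m.primeFactors) := by
    intro p hp
    have hpp := Nat.prime_of_mem_primeFactors hp
    refine ⟨hpp, ?_⟩
    have hpd := Nat.dvd_of_mem_primeFactors hp
    rw [hM] at hpd
    by_cases h : p ∣ f * t
    · exact Or.inl ⟨h, hT.m8 p (Nat.mem_primeFactors.2 ⟨hpp, h, hft0⟩)⟩
    · exact Or.inr ⟨h, Nat.mem_primeFactors.2 ⟨hpp, ((hpp.dvd_mul).1 hpd).resolve_left h, hm0⟩⟩
  -- the data at the primes of the twists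
  have hdat : ∀ p : ℕ, p.Prime → p ∣ f * t → p % 8 = 1 → sg0 p (-1) = false ∧
      dv p (2 * s 0 * s 2) = false ∧ dv p (s 0 * s 1) = false ∧ sgn p (s 0 * s 1) = false ∧
      sgn p (2 * s 0 * s 2) = decide (p = f) := by
    intro p hpp hpd hp8
    have hpm := hqm p hpp hpd
    have hpi := Nat.prime_iff_prime_int.1 hpp
    have hp2 : p ≠ 2 := by rintro rfl; omega
    have n0 : ¬ (p : ℤ) ∣ (s 0 : ℤ) := fun h => hpm (by
      rw [hm]
      exact (Int.natCast_dvd_natCast.1 h).trans (dvd_prod_of_mem s (mem_univ 0)))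
    have n1 : ¬ (p : ℤ) ∣ (s 1 : ℤ) := fun h => hpm (by
      rw [hm]
      exact (Int.natCast_dvd_natCast.1 h).trans (dvd_prod_of_mem s (mem_univ 1)))
    have n2 : ¬ (p : ℤ) ∣ (s 2 : ℤ) := fun h => hpm (by
      rw [hm]
      exact (Int.natCast_dvd_natCast.1 h).trans (dvd_prod_of_mem s (mem_univ 2)))
    have n3 : ¬ (p : ℤ) ∣ 2 := fun h => hp2 (by
      have h2 : p ∣ 2 := by exact_mod_cast h
      exact (Nat.prime_dvd_prime_iff_eq hpp Nat.prime_two).1 h2)
    have nx : ¬ (p : ℤ) ∣ ((s 0 : ℤ) * s 1) := fun h => (hpi.dvd_or_dvd h).elim n0 n1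
    have ny : ¬ (p : ℤ) ∣ (2 * (s 0 : ℤ) * s 2) := fun h =>
      (hpi.dvd_or_dvd h).elim (fun h => (hpi.dvd_or_dvd h).elim n3 n0) n2
    obtain ⟨r0, r1, r2⟩ := hRC p (Nat.mem_primeFactors.2 ⟨hpp, hpd, hft0⟩)
    refine ⟨?_, ?_, ?_, ?_, ?_⟩
    · unfold sg0
      rw [decide_eq_false_iff_not, jac_neg hp8]
      norm_num
    · unfold dv; rw [decide_eq_false_iff_not]; exact ny
    · unfold dv; rw [decide_eq_false_iff_not]; exact nx
    · rw [sgn_ndvd hpp nx]
      unfold sg0
      rw [decide_eq_false_iff_not]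
      by_cases hpf : p = f
      · have k1 : (p : ℤ) ∣ (s 1 : ℤ) - (β : ℤ) := by
          rw [← r1 hpf]
          have h2 : p * (s 1 / p) + s 1 % p = s 1 := Nat.div_add_mod _ _
          refine ⟨(s 1 / p : ℕ), ?_⟩
          have h3 : ((p * (s 1 / p) + s 1 % p : ℕ) : ℤ) = s 1 := by rw [h2]
          push_cast at h3 ⊢
          linarith
        rw [(jac_at hrel hp8 r0 k1).1, hpf, hF.b1]
        norm_num
      · have k1 : (p : ℤ) ∣ (s 1 : ℤ) - (-1 : ℤ) := by
          have h2 := Nat.dvd_of_mod_eq_zero (r2 hpf)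
          have h3 := Int.natCast_dvd_natCast.2 h2
          push_cast at h3
          rwa [sub_neg_eq_add]
        rw [(jac_at hrel hp8 r0 k1).1, jac_neg hp8]
        norm_num
    · rw [sgn_ndvd hpp ny]
      unfold sg0
      rw [decide_eq_decide]
      by_cases hpf : p = f
      · have k1 : (p : ℤ) ∣ (s 1 : ℤ) - (β : ℤ) := by
          rw [← r1 hpf]
          have h2 : p * (s 1 / p) + s 1 % p = s 1 := Nat.div_add_mod _ _
          refine ⟨(s 1 / p : ℕ), ?_⟩
          have h3 : ((p * (s 1 / p) + s 1 % p : ℕ) : ℤ) = s 1 := by rw [h2]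
          push_cast at h3 ⊢
          linarith
        rw [(jac_at hrel hp8 r0 k1).2.1, hpf, hF.b2]
        exact ⟨fun _ => rfl, fun _ => rfl⟩
      · have k1 : (p : ℤ) ∣ (s 1 : ℤ) - (-1 : ℤ) := by
          have h2 := Nat.dvd_of_mod_eq_zero (r2 hpf)
          have h3 := Int.natCast_dvd_natCast.2 h2
          push_cast at h3
          rwa [sub_neg_eq_add]
        rw [(jac_at hrel hp8 r0 k1).2.1]
        have h2 : (1 - (-1) : ℤ) = 2 := by norm_num
        rw [h2, jac_two hp8]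
        constructor
        · intro h; norm_num at h
        · intro h; exact absurd h hpf
  have hQA := QQ_AM hMo hx0s hx0p hx08 hy0s hxM hyM
  have hfA := finrank_AM hMs hMo hS hx0s hx0p hx08 hy0s hxM hyM
  obtain ⟨La, hLa⟩ : ∃ La, La = Lf f (Lt f t s E) := ⟨_, rfl⟩
  obtain ⟨Lb, hLb⟩ : ∃ Lb, Lb = Lt f (f * t) s E := ⟨_, rfl⟩
  have xa : ∀ p, XC (La p) := by
    rw [hLa]
    exact xcLf (xcLt f t s E)
  have xb : ∀ p, XC (Lb p) := by
    rw [hLb]
    exact xcLt f (f * t) s E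
  -- the values of the two conditions
  have vaf : La f = L0 := by rw [hLa]; exact Lf_f _ _
  have vbf : Lb f = L1 := by rw [hLb]; exact Lt_f s E (Nat.dvd_mul_right _ _)
  have vaq : ∀ q : ℕ, q.Prime → q ∣ f * t → q ≠ f → La q = L2 := by
    intro q hq h hqf
    rw [hLa, Lf_ne _ hqf]
    apply Lt_q s E _ hqf
    rcases (hq.dvd_mul).1 h with h | h
    · exact absurd ((Nat.prime_dvd_prime_iff_eq hq hf).1 h) hqf
    · exact h
  have vbq : ∀ q : ℕ, q ∣ f * t → q ≠ f → Lb q = L2 := by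
    intro q h hqf
    rw [hLb]
    exact Lt_q s E h hqf
  have vam : ∀ q : ℕ, ¬ q ∣ f * t → La q = LF s (twt t (∏ j, s j) E) q := by
    intro q h
    have hqf : q ≠ f := by
      rintro rfl
      exact h (Nat.dvd_mul_right _ _)
    rw [hLa, Lf_ne _ hqf]
    exact Lt_ne s E (fun h' => h (h'.mul_left _))
  have vbm : ∀ q : ℕ, ¬ q ∣ f * t → Lb q = LF s (twt (f * t) (∏ j, s j) E) q := by
    intro q h
    rw [hLb]
    exact Lt_ne s E h
  have hQW := QQ_WL (N := M.primeFactors) (e := fun p => sg0 p (-1))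
    (a := fun p => sgn p (2 * s 0 * s 2)) (b := fun p => dv p (2 * s 0 * s 2))
    (c := fun p => dv p (s 0 * s 1)) (d := fun p => sgn p (s 0 * s 1)) (L := La)
    (hL := xa) (by
      intro p hp v w h g hL
      obtain ⟨hpp, ⟨hpd, hp8⟩ | ⟨hpd, hpm⟩⟩ := hmemM p hp
      · obtain ⟨t1, t2, t3, t4, t5⟩ := hdat p hpp hpd hp8
        by_cases hpf : p = f
        · subst hpf
          rw [vaf] at hL
          exact qbL0 hL t2 t3
        · rw [vaq p hpp hpd hpf] at hL
          exact qbL2 hL t2 t3 (t5.trans (decide_eq_false hpf)) t4 t1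
      · rw [vam p hpd] at hL
        exact loc_iso hs hodd hrel _ p (by rw [← hm]; exact hpm) v w h g hL)
  have hQW' := QQ_WL (N := M.primeFactors) (e := fun p => sg0 p (-1))
    (a := fun p => sgn p (2 * s 0 * s 2)) (b := fun p => dv p (2 * s 0 * s 2))
    (c := fun p => dv p (s 0 * s 1)) (d := fun p => sgn p (s 0 * s 1)) (L := Lb)
    (hL := xb) (by
      intro p hp v w h g hL
      obtain ⟨hpp, ⟨hpd, hp8⟩ | ⟨hpd, hpm⟩⟩ := hmemM p hp
      · obtain ⟨t1, t2, t3, t4, t5⟩ := hdat p hpp hpd hp8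
        by_cases hpf : p = f
        · subst hpf
          rw [vbf] at hL
          exact qbL1 hL t2 t3 (t5.trans (decide_eq_true rfl)) t4 t1
        · rw [vbq p hpd hpf] at hL
          exact qbL2 hL t2 t3 (t5.trans (decide_eq_false hpf)) t4 t1
      · rw [vbm p hpd] at hL
        exact loc_iso hs hodd hrel _ p (by rw [← hm]; exact hpm) v w h g hL)
  have hfW : Module.finrank (ZMod 2) (WL M.primeFactors La xa) = 2 * M.primeFactors.card := by
    apply finrank_of_card
    rw [card_WL, prod_congr rfl (g := fun _ => 4), prod_const, pow_mul]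
    · norm_num
    intro p hp
    obtain ⟨hpp, ⟨hpd, hp8⟩ | ⟨hpd, hpm⟩⟩ := hmemM p hp
    · by_cases hpf : p = f
      · subst hpf
        rw [vaf]
        exact card_L0
      · rw [vaq p hpp hpd hpf]
        exact card_L2
    · obtain ⟨j, hj⟩ := exists_cls hs (p := p) (by rw [← hm]; exact hpm)
      rw [vam p hpd, hj]
      exact card_LR j _
  have hfW' : Module.finrank (ZMod 2) (WL M.primeFactors Lb xb) = 2 * M.primeFactors.card := by
    apply finrank_of_card
    rw [card_WL, prod_congr rfl (g := fun _ => 4), prod_const, pow_mul]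
    · norm_num
    intro p hp
    obtain ⟨hpp, ⟨hpd, hp8⟩ | ⟨hpd, hpm⟩⟩ := hmemM p hp
    · by_cases hpf : p = f
      · subst hpf
        rw [vbf]
        exact card_L1
      · rw [vbq p hpd hpf]
        exact card_L2
    · obtain ⟨j, hj⟩ := exists_cls hs (p := p) (by rw [← hm]; exact hpm)
      rw [vbm p hpd, hj]
      exact card_LR j _
  -- the intersection of the two local conditions
  obtain ⟨k, hk⟩ : ∃ k : ℕ → ℕ, k = fun p => if p ∣ f * t then (if p = f then 0 else 2) else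
    if jacobiSym f p = -1 then 1 else 2 := ⟨_, rfl⟩
  have hfI : Module.finrank (ZMod 2) (WL M.primeFactors La xa ⊓ WL M.primeFactors Lb xb :
        Submodule (ZMod 2) (M.primeFactors → XX)) = ∑ p ∈ M.primeFactors, k p := by
    apply finrank_of_card
    rw [inf_WL, card_WL, ← prod_pow_eq_pow_sum]
    apply prod_congr rfl
    intro p hp
    rw [hk]
    obtain ⟨hpp, ⟨hpd, hp8⟩ | ⟨hpd, hpm⟩⟩ := hmemM p hp
    · simp only [if_pos hpd]
      by_cases hpf : p = f
      · subst hpf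
        simp only [if_true, pow_zero]
        rw [vaf, vbf]
        exact card_L01
      · simp only [if_neg hpf]
        rw [vaq p hpp hpd hpf, vbq p hpd hpf]
        exact card_L22
    · obtain ⟨j, hj⟩ := exists_cls hs (p := p) (by rw [← hm]; exact hpm)
      simp only [if_neg hpd]
      rw [vam p hpd, vbm p hpd, hj, hj]
      have h2 := card_LR2 j (decide (p ∈ twt t (∏ j, s j) E))
        (decide (p ∈ twt (f * t) (∏ j, s j) E))
      have h3 := twt_dec (E := E) hpm hcm
      rw [hm] at h3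
      refine (show _ = _ from h2).trans ?_
      by_cases hJ : jacobiSym f p = -1
      · rw [if_pos hJ, if_neg (fun h => (h3.1 h) hJ)]
      · rw [if_neg hJ, if_pos (h3.2 hJ)]
  have hjf : ∏ p ∈ m.primeFactors, J((f : ℤ) | p) = -1 := by
    rw [jac_sqf hsm, jacobiSym.quadratic_reciprocity_one_mod_four (by have := hF.m8; omega) hom]
    have hRf := hRC f (Nat.mem_primeFactors.2 ⟨hf, Nat.dvd_mul_right _ _, hft0⟩)
    obtain ⟨r0, r1, -⟩ := hRf
    have k1 : (f : ℤ) ∣ (s 1 : ℤ) - (β : ℤ) := by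
      rw [← r1 rfl]
      have h2 : f * (s 1 / f) + s 1 % f = s 1 := Nat.div_add_mod _ _
      refine ⟨(s 1 / f : ℕ), ?_⟩
      have h3 : ((f * (s 1 / f) + s 1 % f : ℕ) : ℤ) = s 1 := by rw [h2]
      push_cast at h3 ⊢
      linarith
    have h2 := (jac_at hrel hF.m8 r0 k1).2.2
    have h3 : ((m : ℕ) : ℤ) = (s 0 : ℤ) * s 1 * s 2 := by
      rw [hm, prod3]
      push_cast
      ring
    rw [h3, h2, hF.b1, hF.b2]
    norm_num
  have hNc : M.primeFactors = (f * t).primeFactors ∪ m.primeFactors := by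
    rw [hM, Nat.primeFactors_mul hft0 hm0]
  have hdisj : Disjoint (f * t).primeFactors m.primeFactors := hcm.disjoint_primeFactors
  have hoddI : Odd (∑ p ∈ M.primeFactors, k p) := by
    have h2 : (-1 : ℤ) ^ (∑ p ∈ M.primeFactors, k p) = -1 := by
      rw [← prod_pow_eq_pow_sum, hNc, prod_union hdisj]
      have h3 : ∏ p ∈ (f * t).primeFactors, (-1 : ℤ) ^ k p = 1 := by
        apply prod_eq_one
        intro p hp
        rw [hk]
        simp only [if_pos (Nat.dvd_of_mem_primeFactors hp)]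
        by_cases hpf : p = f
        · rw [if_pos hpf]; norm_num
        · rw [if_neg hpf]; norm_num
      rw [h3, one_mul]
      refine Eq.trans (prod_congr rfl ?_) hjf
      intro p hp
      have hpd : ¬ p ∣ f * t := fun h => hqm p (Nat.prime_of_mem_primeFactors hp) h
        (Nat.dvd_of_mem_primeFactors hp)
      rw [hk]
      simp only [if_neg hpd]
      by_cases hJ : jacobiSym f p = -1
      · rw [if_pos hJ, hJ]; norm_num
      · rw [if_neg hJ]
        have hg : ((f : ℕ) : ℤ).gcd p = 1 := by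
          have : Nat.Coprime f p := (hf.coprime_iff_not_dvd).2 (fun h => by
            have h2 := (Nat.prime_dvd_prime_iff_eq hf (Nat.prime_of_mem_primeFactors hp)).1 h
            rw [h2] at hfm
            exact hfm (Nat.dvd_of_mem_primeFactors hp))
          exact this
        rcases jacobiSym.eq_one_or_neg_one hg with h | h
        · rw [h]; norm_num
        · exact absurd h hJ
    rcases Nat.even_or_odd (∑ p ∈ M.primeFactors, k p) with h | h
    · rw [h.neg_one_pow] at h2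
      norm_num at h2
    · exact h
  have key := hLAG (M.primeFactors → XX) (BB M.primeFactors (fun p => b2z (sg0 p (-1))))
    (QQ M.primeFactors (fun p => b2z (sg0 p (-1))) (fun p => b2z (sgn p (2 * s 0 * s 2)))
      (fun p => b2z (dv p (2 * s 0 * s 2))) (fun p => b2z (dv p (s 0 * s 1)))
      (fun p => b2z (sgn p (s 0 * s 1)))) (2 * M.primeFactors.card) (AM M)
    (WL M.primeFactors La xa) (WL M.primeFactors Lb xb)
    (by rw [finrank_V]; ring) (BB_nondeg _ _) (QQ_add _ _ _ _ _ _) hQA hQW hQW' hfA hfW hfW'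
  refine ⟨Module.finrank (ZMod 2) (AM M ⊓ WL M.primeFactors La xa :
      Submodule (ZMod 2) (M.primeFactors → XX)),
    Module.finrank (ZMod 2) (AM M ⊓ WL M.primeFactors Lb xb :
      Submodule (ZMod 2) (M.primeFactors → XX)), ?_, ?_, ?_⟩
  · have h2 : Vt f t s E = VG M La := by
      show VG (t * ∏ j, s j) (Lt f t s E) = VG M La
      rw [← hm, hLa, VG_Lf hf hf2 (mul_ne_zero ht0 hm0) (fun h =>
        ((hf.dvd_mul).1 h).elim hft hfm), ← mul_assoc, ← hM]
    rw [h2, ← card_inf hMo hS La xa, card_sub]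
  · have h2 : Vt f (f * t) s E = VG M Lb := by
      show VG (f * t * ∏ j, s j) (Lt f (f * t) s E) = VG M Lb
      rw [← hm, hLb, ← hM]
    rw [h2, ← card_inf hMo hS Lb xb, card_sub]
  · rw [hfI] at key
    have h2 : Even (2 * M.primeFactors.card) := even_two_mul _
    rw [Nat.even_add, Nat.even_add] at key
    rw [← Nat.not_even_iff_odd] at hoddI ⊢
    tauto

end Pool.Agent.Y655.QK
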